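import Mathlib
import Pool.Agent.Helper63.ClosedRange

/-! A pair of operators admitting a closed-range extension for which neither the range of `A₀`
nor the range of `A` is closed. -/

namespace Pool.Agent.Results.MP_790317_an.NeitherClosed

open LinearPMap Pool.Agent.Helper63.ClosedRange

/-- A closed-range extension of the pair of operators `A₀ : H₀ → H₁`, `B₀ : H₁ → H₀` with values
in the Hilbert spaces `X`, `Y`: a densely defined closed operator `op : X → Y` with closed range
and linear isometries `iX : H₀ → X`, `iY : H₁ → Y` with `iY A₀ ⊆ op iX` and `iX B₀ ⊆ -op† iY`. -/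
structure ClosedRangeExtension {𝕜 H₀ H₁ : Type*} [RCLike 𝕜]
    [NormedAddCommGroup H₀] [InnerProductSpace 𝕜 H₀]
    [NormedAddCommGroup H₁] [InnerProductSpace 𝕜 H₁]
    (A₀ : H₀ →ₗ.[𝕜] H₁) (B₀ : H₁ →ₗ.[𝕜] H₀)
    (X Y : Type*) [NormedAddCommGroup X] [InnerProductSpace 𝕜 X] [CompleteSpace X]
    [NormedAddCommGroup Y] [InnerProductSpace 𝕜 Y] [CompleteSpace Y] where
  op : X →ₗ.[𝕜] Y
  iX : H₀ →ₗᵢ[𝕜] X
  iY : H₁ →ₗᵢ[𝕜] Y
  dense_domain : Dense (op.domain : Set X)
  isClosed : op.IsClosed
  isClosed_range : IsClosed (Set.range op)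
  extends_A : ∀ x : A₀.domain, ∃ h : iX x ∈ op.domain, iY (A₀ x) = op ⟨iX x, h⟩
  extends_B : ∀ y : B₀.domain, ∃ h : iY y ∈ (-op†).domain, iX (B₀ y) = (-op†) ⟨iY y, h⟩

/-- In every infinite dimensional separable real or complex Hilbert space `H` there are densely
defined operators `Ac`, `Bc` with `Ac ⊆ -Bc†` such that the closures `A₀`, `B₀` admit a
closed-range extension (already in `H` itself), while neither the range of `A₀` nor the range of
`A = -B₀†` is closed. -/
theorem result (𝕜 : Type*) [RCLike 𝕜] (H : Type*) [NormedAddCommGroup H] [InnerProductSpace 𝕜 H]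
    [CompleteSpace H] [TopologicalSpace.SeparableSpace H] (hH : ¬ FiniteDimensional 𝕜 H) :
    ∃ (Ac Bc : H →ₗ.[𝕜] H),
      Dense (Ac.domain : Set H) ∧ Dense (Bc.domain : Set H) ∧ Ac ≤ -Bc† ∧
      Nonempty (ClosedRangeExtension Ac.closure Bc.closure H H) ∧
      ¬ IsClosed (Set.range Ac.closure) ∧
      ¬ IsClosed (Set.range (-Bc.closure†)) := by
  obtain ⟨b⟩ := exists_basis (𝕜 := 𝕜) hH
  refine ⟨A b true, A b false, A_dense b true, A_dense b false, A_le_neg_adjoint b true,
    ?_, ?_, ?_⟩
  · rw [closure_eq_self (A_isClosed b true), closure_eq_self (A_isClosed b false)]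
    refine ⟨⟨M b true, LinearIsometry.id, LinearIsometry.id, M_dense b true, M_isClosed b true,
      M_range_closed b true, ?_, ?_⟩⟩
    · intro x
      refine ⟨(A_le_M b true).1 x.2, ?_⟩
      exact (A_le_M b true).2 rfl
    · intro y
      have h : A b false ≤ -(M b true)† := by
        rw [M_adjoint, neg_M]
        exact A_le_M b false
      refine ⟨h.1 y.2, ?_⟩
      exact h.2 rfl
  · rw [closure_eq_self (A_isClosed b true)]
    exact A_range_not_closed b true
  · rw [closure_eq_self (A_isClosed b false), neg_range]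
    exact A_adjoint_range_not_closed b false

end Pool.Agent.Results.MP_790317_an.NeitherClosed
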